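import Pool.Agent.W_448w4_h70.WG

/-!
# The balance at window `3` with the least cost as a number (MP_448cb3_co, S7)
-/

namespace Pool.Agent.GaussPoset.W4

set_option linter.unusedSectionVars false

open Polynomial Finset Sm Wd Cp

universe u

section Bal

variable {P : Type u} [Fintype P] [PartialOrder P] [DecidableEq P] {r j w K : ℕ}
  {N : Tops P → Finset P} {b : Tops P → ℕ} {θ : Tops P → P → ℕ}

/-- joins are in the far set -/
lemma join_mem_rA (W : Wk r j w K N b θ) {z : P} (hz : Hul.Jn z) : z ∈ rA N := by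
  have HN := W.natSys
  obtain ⟨t1, t2, h1, h2, hne, hz1, hz2⟩ := hz
  have key : ∀ y, y ∉ unnat N → (y ≤ t1 → y ≤ t2 → False) := by
    intro y hy g1 g2
    have h3 : y ∈ N (topOf y) := HN.mem_iff.mpr ⟨hy, rfl⟩
    exact hne ((HN.top_eq h3 h1 g1).trans (HN.top_eq h3 h2 g2).symm)
  have hzu : z ∈ unnat N := by
    by_contra hcon
    exact key z hcon hz1 hz2
  refine mem_rA.mpr ⟨hzu, fun h => ?_⟩
  obtain ⟨-, y, hy, hup⟩ := mem_twA.mp h
  have hl := W.lt_lev hzu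
  refine key y hy ((hup t1).mpr ?_).le ((hup t2).mpr ?_).le
  · exact lt_of_le_of_ne hz1 (by rintro rfl; omega)
  · exact lt_of_le_of_ne hz2 (by rintro rfl; omega)

lemma rA_pos (W : Wk r j w K N b θ) : ∀ x ∈ rA N, 0 < lev x := fun x hx => by
  have := W.lt_lev (mem_rA.mp hx).1
  omega

lemma bdR_nonempty (W : Wk r j w K N b θ) (hJ : ∃ z : P, Hul.Jn z) : (bdR (rA N)).Nonempty := by
  obtain ⟨z, hz⟩ := hJ
  obtain ⟨z', hz', -⟩ := exists_bd_above (rA_pos W) (join_mem_rA W hz)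
  exact ⟨z', hz'⟩

/-- **The balance at window `w`, with the least cost `v`.** -/
theorem winB_of (W : Wk r j w K N b θ) {LE LO : List ℤ}
    (L : Lk P j w K N b θ (XL (j + 1 - w) LE) (XL (j + 1 - w) LO)) (h16 : j ≤ 16) {cT lb : ℤ}
    (hK : (K : ℤ) = ((j + 1 - w : ℕ) : ℤ) ^ 2 + cT) (hT : cT < 7 * ((j + 1 - w : ℕ) : ℤ) + 10)
    (hl0 : lb ≤ 0) (hlE : ∀ x ∈ LE, lb ≤ x) (hlO : ∀ x ∈ LO, lb ≤ x)
    (hlow : ∀ z x x' : P, Cg z x x' → Sok j x → Sok j x' → j + 1 ≤ lev z →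
      ∀ k, k < w → nab k z = 2)
    (hPen : OnePen P j (fun t => 2 ≤ b t) ∨ ∃ z : P, Hul.Jn z ∧
      ful w z ≤ (j + 1 - w) ^ 2 + 5 * (j - w))
    {v : ℕ} (M : Mn j w N θ v) (hex : (∃ z ∈ bdR (rA N), cst w (hA N θ) z = v) ∨
      ∃ x ∈ twA N, tcst w (thA N θ) (twT N x, x) = v) :
    WinB P j w cT (fun V => LO.elem V) (fun V => nz ((j + 1 - w : ℕ) : ℤ) V || LE.elem V)
      lb ((v : ℤ) - ((j + 1 - w : ℕ) : ℤ) ^ 2) := by
  classical
  have HN := W.natSys
  have hj := W.hj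
  have hw := W.hw
  have H := W.gt.H
  have hpos := rA_pos W
  have hmin : ∀ z, Hul.Jn z → v ≤ ful w z := fun z hz => min_le_ful hpos M.bd (join_mem_rA W hz)
  have hPen' : OnePen P j (fun t => 2 ≤ b t) ∨ v ≤ (j + 1 - w) ^ 2 + 5 * (j - w) := by
    rcases hPen with h | ⟨z, hz, h⟩
    · exact Or.inl h
    · exact Or.inr ((hmin z hz).trans h)
  have hlev : ∀ z x x' : P, Cg z x x' → j + 1 ≤ lev z := by
    intro z x x' h
    by_contra hcon
    exact W.gt.no_join z (by omega) h.jn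
  have hyc : ((j + 1 - w : ℕ) : ℤ) = (j : ℤ) + 1 - w := by
    rw [Nat.cast_sub (by omega)]
    push_cast
    ring
  have hline : ∀ z x x' : P, Cg z x x' → Sok j x → Sok j x' →
      (ful w z : ℤ) = ((j + 1 - w : ℕ) : ℤ) ^ 2 + (kapZ j z * ((j : ℤ) - w) + gZ j z) := by
    intro z x x' h hs hs'
    have hl := hlev z x x' h
    rw [hyc]
    exact ful_line (by omega) (by omega) (hlow z x x' h hs hs' hl)
  have hpar : ∀ {z x x' : P}, Cg z x x' → Sok j x → Sok j x' →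
      anc z = 2 * w + nst w (fun z => lev z - w) z := by
    intro z x x' h hs hs'
    have hl := hlev z x x' h
    have h2 := hlow z x x' h hs hs' hl
    unfold anc
    obtain ⟨c, hc⟩ : ∃ c, lev z = w + c := ⟨lev z - w, by omega⟩
    rw [nst_eq, hc, Finset.sum_range_add, Nat.add_sub_cancel_left,
      Finset.sum_congr rfl (g := fun _ => 2) (fun k hk => h2 k (by
        rw [mem_range] at hk
        omega)), Finset.sum_const, card_range, smul_eq_mul, Nat.mul_comm]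
  have hkp : ∀ {z : P}, (Odd (anc z) → Odd (kapZ j z)) ∧ (Even (anc z) → Even (kapZ j z)) :=
    kap_parity
  have hmn : ∀ z x x' : P, Cg z x x' → Sok j x → Sok j x' →
      (v : ℤ) - ((j + 1 - w : ℕ) : ℤ) ^ 2 ≤ kapZ j z * (j - w) + gZ j z := by
    intro z x x' h hs hs'
    have h1 : (v : ℤ) ≤ ful w z := by exact_mod_cast hmin z h.jn
    rw [hline z x x' h hs hs'] at h1
    linarith
  by_cases hcap : K < v
  · have hcap' : (K : ℤ) < v := by exact_mod_cast hcap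
    exact ⟨fun h => by linarith, hmn, fun h => by linarith, fun h => by linarith⟩
  have hcv : (v : ℤ) ≤ ((j + 1 - w : ℕ) : ℤ) ^ 2 + cT := by
    rw [← hK]
    exact_mod_cast not_lt.mp hcap
  obtain ⟨ho, he⟩ := W.both L hPen' M hex (not_lt.mp hcap)
  have hsq : ∀ z x x' : P, Cg z x x' → ful w z = v → 0 ≤ (v : ℤ) - ((j + 1 - w : ℕ) : ℤ) ^ 2 := by
    intro z x x' h he
    have hl := hlev z x x' h
    obtain ⟨c, hc⟩ : ∃ c, lev z = w + c := ⟨lev z - w, by omega⟩
    have h4 := ful_ge (w := w) (z := z) (c := c) (fun _ => 0) hc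
      (fun n hn1 hn2 => h.two_le H (k := w + n) (by omega))
    simp only [mul_zero, Finset.sum_const_zero, add_zero] at h4
    have h5 : (j + 1 - w) ^ 2 ≤ c ^ 2 := Nat.pow_le_pow_left (by omega) 2
    have h6 : (j + 1 - w) ^ 2 ≤ v := by rw [← he]; exact h5.trans h4
    have h7 : (((j + 1 - w) ^ 2 : ℕ) : ℤ) ≤ v := by exact_mod_cast h6
    push_cast at h7
    linarith
  have hnzpos : ∀ {V : ℤ}, nz ((j + 1 - w : ℕ) : ℤ) V = true → 0 ≤ V := by
    intro V hV
    unfold nz at hV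
    rw [List.any_eq_true] at hV
    obtain ⟨t, -, ht⟩ := hV
    rw [decide_eq_true_eq] at ht
    have h1 : (0 : ℤ) ≤ t := Int.natCast_nonneg t
    have h2 : (1 : ℤ) ≤ ((j + 1 - w : ℕ) : ℤ) := by
      have : 1 ≤ j + 1 - w := by omega
      exact_mod_cast this
    rcases ht with ht | ht | ht <;> nlinarith
  refine ⟨fun _ => ?_, hmn, fun _ => ?_, fun _ => ?_⟩
  · rcases ho with ⟨z, x, x', h1, h2, h3, h4, h5⟩ | h | h
    · exact hl0.trans (hsq z x x' h1 h4)
    · exact (od_false h (by omega) h16 hcv hT).elim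
    · exact hlO _ h
  · rcases ho with ⟨z, x, x', h1, h2, h3, h4, h5⟩ | h | h
    · left
      refine ⟨z, x, x', h1, h2, h3, hkp.1 (by
        rw [hpar h1 h2 h3]
        exact (even_two_mul w).add_odd h5), ?_⟩
      have := hline z x x' h1 h2 h3
      rw [h4] at this
      linarith
    · exact (od_false h (by omega) h16 hcv hT).elim
    · right
      exact List.elem_iff.mpr h
  · rcases he with ⟨z, x, x', h1, h2, h3, h4, h5⟩ | h | h
    · left
      refine ⟨z, x, x', h1, h2, h3, hkp.2 (by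
        rw [hpar h1 h2 h3]
        exact (even_two_mul w).add h5), ?_⟩
      have := hline z x x' h1 h2 h3
      rw [h4] at this
      linarith
    · right
      rw [Bool.or_eq_true]
      exact Or.inl (ev_nz h (by omega) hcv hT)
    · right
      rw [Bool.or_eq_true]
      exact Or.inr (List.elem_iff.mpr h)

end Bal

section Context

variable {P : Type u} [Fintype P] [PartialOrder P] [DecidableEq P] {r j : ℕ}
  {lo hi : Tops P → ℕ → ℕ} {e : Tops P → ℕ → ℕ → P}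

/-- a system of natural sets for the windows `3` and `4` -/
structure Sy (P : Type u) [Fintype P] [PartialOrder P] [DecidableEq P] (j : ℕ)
    (lo hi : Tops P → ℕ → ℕ) (N : Tops P → Finset P) (θ3 θ4 : Tops P → P → ℕ) : Prop where
  typ : ∀ t, TypeY j t (N t) (θ3 t) (θ4 t)
  typ3 : ∀ t, TypeX j 3 t (hi t 3 - lo t 3 + 1) (N t) (θ3 t)
  top3 : ∀ t, TopType j 3 t (hi t 3 - lo t 3 + 1) (N t) (θ3 t)
  sum3 : ∑ t, (hi t 3 - lo t 3 + 1) = (lv P 3).card
  unq3 : Unq P 3 (fun t => hi t 3 - lo t 3 + 1)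

/-- the strips at the windows `3` and `4` -/
theorem exists_sy (K : Ctx P r j lo hi e) (h12 : 12 ≤ j) : ∃ N θ3 θ4, Sy P j lo hi N θ3 θ4 := by
  have H := K.gt.H
  have hsh : ∀ t : Tops P, lo t 3 = hi t 3 ∨ RectShape j (lo t) (hi t) ∨
      StairShape j (lo t) (hi t) ∨ StairShape j (fun k => k - hi t k) (fun k => k - lo t k) := by
    intro t
    rcases shape_cases (K.comp t) (by omega) (K.shape t) with h | h | ⟨a, h, h3⟩
    · exact Or.inl (h 3 (by omega))
    · exact Or.inr (by tauto)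
    · left
      have h4 := h.four (by omega)
      rw [(h.low 3 (by omega)).1, (h.low 3 (by omega)).2]
  choose N θ3 θ4 h1 h2 h3 using fun t =>
    exists_typeY K.gt (by omega) (K.comp t) (hsh t)
  refine ⟨N, θ3, θ4, h1, h2, h3, (card_level H K.gt.good K.comp (by omega)).symm, ?_⟩
  intro t ht x y hx hy hlx hly
  have e1 := (K.comp t).lo_le 3 (by omega)
  obtain ⟨s, a1, a2, a3⟩ := (K.comp t).surj x hx (by omega)
  obtain ⟨s', b1, b2, b3⟩ := (K.comp t).surj y hy (by omega)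
  rw [hlx] at a1 a2 a3
  rw [hly] at b1 b2 b3
  simp only at ht
  rw [← a3, ← b3, show s = s' by omega]

/-- **the balance at window `3` for the system, with the least cost `v`** -/
theorem win3_sy (K : Ctx P r j lo hi e) (h12 : 12 ≤ j) {N : Tops P → Finset P}
    {θ3 θ4 : Tops P → P → ℕ} (S : Sy P j lo hi N θ3 θ4) {cT : ℕ}
    {LE LO : List ℤ} {lb : ℤ} {E : List (ℕ × ℕ × ℕ)} (hE : ChkE j E) (h0 : (0, 0, 0) ∈ E)
    (hb : j % 2 = 1 → ∀ s ∈ E, (s.1 : ℤ) * ((j : ℤ) - 3) - s.2.1 ≤ 5 * ((j : ℤ) - 3))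
    (c1 : ∀ a ∈ Finset.Icc 2 ((j + 1) / 2), (j + 1 - 3) ^ 2 + cT + 1 < stC 3 (j + 1) a)
    (c2 : ∀ a ∈ Finset.Icc 2 (j - 1), (j + 1 - 3) ^ 2 + cT + 1 < reC 3 (j + 1) a)
    (c3 : j % 2 = 1 → (j + 1 - 3) ^ 2 + cT < flC 3 j)
    (c4 : j % 2 = 0 → (j + 1 - 3) ^ 2 + cT < foC 3 j + foE 3 j)
    (c5 : j % 2 = 0 → (Even (foN 3 j) ∧ (foC 3 j : ℤ) - ((j + 1 - 3 : ℕ) : ℤ) ^ 2 ∈ LE) ∨
      (Odd (foN 3 j) ∧ (foC 3 j : ℤ) - ((j + 1 - 3 : ℕ) : ℤ) ^ 2 ∈ LO))
    (c6 : 2 * ((j + 1 - 3) ^ 2 + cT) < 3 * (j + 1 - 3) ^ 2 + 3 * (j + 1 - 3))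
    (c7 : cT < 7 * (j + 1 - 3) + 10)
    (hl0 : lb ≤ 0) (hlE : ∀ x ∈ LE, lb ≤ x) (hlO : ∀ x ∈ LO, lb ≤ x)
    (hJ : ∃ z : P, Hul.Jn z) :
    ∃ v : ℕ, Mn j 3 N θ3 v ∧
      Wk r j 3 ((j + 1 - 3) ^ 2 + cT) N (fun t => hi t 3 - lo t 3 + 1) θ3 ∧
      WinB P j 3 cT (fun V => LO.elem V) (fun V => nz ((j + 1 - 3 : ℕ) : ℤ) V || LE.elem V)
        lb ((v : ℤ) - ((j + 1 - 3 : ℕ) : ℤ) ^ 2) := by
  have H := K.gt.H
  have h16 := K.h16
  have W : Wk r j 3 ((j + 1 - 3) ^ 2 + cT) N (fun t => hi t 3 - lo t 3 + 1) θ3 :=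
    { gt := K.gt, hj := by omega, hw1 := by omega, hw := by omega, typ := S.typ3, top := S.top3
      sum_b := S.sum3
      hK := c6
      rdeep := fun C _ hx _ h1 h2 h3 h4 => rdeep_of (by omega) (by omega) c2 C hx h1 h2 h3 h4
      sdeep := fun _ _ _ _ C _ hx _ h1 h3 h4 => sdeep_of (by omega) (by omega) c1 C hx h1 h3 h4 }
  have L : Lk P j 3 ((j + 1 - 3) ^ 2 + cT) N (fun t => hi t 3 - lo t 3 + 1) θ3
      (XL (j + 1 - 3) LE) (XL (j + 1 - 3) LO) :=
    { unq := S.unq3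
      nsk := fun z x x' h hl hn hns => (nsk23 h12 (Or.inr rfl) hn hns).elim
      dj := fun v z x hz hc hl hzx hD =>
        W.deep_j (by omega) (by omega) c3 c4 c5 hz hc hl hzx hD }
  have hlow : ∀ z x x' : P, Cg z x x' → Sok j x → Sok j x' → j + 1 ≤ lev z →
      ∀ k, k < 3 → nab k z = 2 := by
    intro z x x' h hs hs' hl k hk
    obtain ⟨l1, l2⟩ := h.lev_eq H
    have hend : lev x = j → (Win.uc x).card = 1 := fun hh => (K.ends h (by omega)).1
    have hend' : lev x' = j → (Win.uc x').card = 1 := fun hh => (K.ends h (by omega)).2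
    rw [h.sum H (by omega), K.low_one h12 h.only (by omega) hend hs (by omega),
      K.low_one h12 h.only' (by omega) hend' hs' (by omega)]
  have hpen : OnePen P j (fun t => 2 ≤ hi t 3 - lo t 3 + 1) ∨ ∃ z : P, Hul.Jn z ∧
      ful 3 z ≤ (j + 1 - 3) ^ 2 + 5 * (j - 3) := by
    rcases K.pen_or with h | ⟨hodd, z, x, x', h1, h2, h3, h4⟩
    · left
      intro e e' p p' hB
      refine h e e' p p' ?_
      rcases shape_cases (K.comp (topOf e)) (by omega) (K.shape (topOf e)) with h | h | ⟨a, h, h3⟩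
      · have := h 3 (by omega)
        omega
      · exact h
      · have h4 := h.four (by omega)
        have e1 := h.low 3 (by omega)
        omega
    · right
      have hs : Sok j x := ⟨fun hf => by
        have := hf.1
        have := (h1.lev_eq H).1
        omega, fun _ hf => by
        have := hf.2.1
        omega⟩
      have hs' : Sok j x' := ⟨fun hf => by
        have := hf.1
        have := (h1.lev_eq H).2
        omega, fun _ hf => by
        have := hf.2.1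
        omega⟩
      exact ⟨z, h1.jn, K.cheap (w := 3) (by omega) hodd hE h0 (hb hodd) h1 h2 h3 h4
        (hlow z x x' h1 hs hs' h2.ge)⟩
  obtain ⟨v, M, hex⟩ := exists_minK W (bdR_nonempty W hJ)
  exact ⟨v, M, W, winB_of W L h16 (cT := (cT : ℤ)) (lb := lb) (by push_cast; ring)
    (by exact_mod_cast c7) hl0 hlE hlO hlow hpen M hex⟩

/-- the system for the own noise at window `4` -/
theorem y4_of {K3 K V3 v : ℕ} {N : Tops P → Finset P} {θ3 θ4 : Tops P → P → ℕ}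
    (S : Sy P j lo hi N θ3 θ4) (W : Wk r j 3 K3 N (fun t => hi t 3 - lo t 3 + 1) θ3)
    (M : Mn j 3 N θ3 v) (hv : V3 ≤ v) (n : Nm j K V3) :
    Y4 r j K3 K V3 N (fun t => hi t 3 - lo t 3 + 1) θ3 θ4 where
  W := W
  typ := S.typ
  m3 := fun z hz => hv.trans (M.bd z hz)
  m3' := fun x hx => hv.trans (M.tw x hx)
  n := n

end Context

end Pool.Agent.GaussPoset.W4
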