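import Pool.Agent.W_448w4_h70.WG

/-!
# Stair tops as defect tops at window `4`: the least energy (MP_448cb3_co, S7, `j = 12, 14, 15`)
-/

namespace Pool.Agent.GaussPoset.W4

set_option linter.unusedSectionVars false

open Polynomial Finset Sm

universe u

variable {P : Type u} [Fintype P] [PartialOrder P] [DecidableEq P] {r j K3 K V3 m : ℕ}
  {N : Tops P → Finset P} {b : Tops P → ℕ} {θ3 θ4 : Tops P → P → ℕ}

/-- cost of the cell `(a, j - a)` of a stair at window `4` with the label of the threshold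
`thS 4` -/
def deC (j a : ℕ) : ℕ :=
  ∑ n ∈ range (j - 4 + 1), min ((a - 4) + (j - a - 4) + 1) n *
    (min ((4 + n) / 2) a + 1 - ((4 + n) - (j - a)))

/-- **The energy of a defect of a stair top.** -/
theorem Y4.stair_defect (Y : Y4 r j K3 K V3 N b θ3 θ4) {t : Tops P} {Nc : Finset P}
    {co : P → ℕ × ℕ} (h0 : StairNat j 4 t Nc co) (h1 : N t = natS Nc co)
    (h2' : θ4 t = thSg 2 4 Nc co) (hm : ∀ a ∈ Finset.Icc 1 (j / 2), m ≤ deC j a)
    {e : P → ℕ} {F : Finset P} (hV : Vd 4 e F) {z x : P} (hzx : z ⋖ x)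
    (hx : x ∈ natS Nc co) (hz : z ∉ natS Nc co) (he : thS 4 Nc co x < e z)
    (hr : z ∈ rA N → e z ≤ thSg 2 4 Nc co x) : m ≤ ∑ y ∈ natS Nc co, e y := by
  classical
  have W := Y.W
  have H := W.gt.H
  have HN := W.natSys
  have hj := Y.n.hj
  have e1 := (H.covBy_iff.mp hzx).2
  obtain ⟨hxu, hxt⟩ := HN.mem_iff.mp (show x ∈ N t by rw [h1]; exact hx)
  have hzu : z ∈ unnat N := by
    by_contra hcon
    apply hz
    rw [← h1]
    refine HN.mem_iff.mpr ⟨hcon, ?_⟩
    rw [← hxt]
    exact (W.up hcon hzx.1.le).2.symm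
  have hlz := W.lt_lev hzu
  -- a cell of level `j`
  have key : ∀ x1 ∈ Nc, 1 ≤ (co x1).1 → j ≤ lev x1 → z ≤ x1 → thS 4 Nc co x1 < e z →
      m ≤ ∑ y ∈ natS Nc co, e y := by
    intro x1 hx1 ha hl1 hzx1 he1
    have hl := h0.chart.lev x1 hx1
    have hmm : (co x1).1 ≤ (co x1).2 := h0.chart.mem x1 hx1
    obtain ⟨y, hy, hcy⟩ := h0.chart.low x1 hx1 (j - min (co x1).2 (j - 1), min (co x1).2 (j - 1))
      ⟨by simp only; omega, by simp only; omega⟩
      (show j - min (co x1).2 (j - 1) ≤ min (co x1).2 (j - 1) by omega)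
    have hy1 : (co y).1 = j - min (co x1).2 (j - 1) := by rw [hcy]
    have hy2 : (co y).2 = min (co x1).2 (j - 1) := by rw [hcy]
    have hly := h0.chart.lev y hy
    have hxy : x1 ≤ y := by
      rw [h0.chart.le_iff x1 hx1 y hy, hcy]
      exact ⟨by simp only; omega, by simp only; omega⟩
    have hJ1 : x1 ∉ junk (fun c => c.1 ≤ c.2) Nc co := not_junk_above h0.chart hx1 ha le_rfl
    have hJy : y ∉ junk (fun c => c.1 ≤ c.2) Nc co := not_junk_above h0.chart hx1 ha hxy
    have hth : thS 4 Nc co y ≤ thS 4 Nc co x1 := by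
      unfold thS
      rw [if_neg hJ1, if_neg hJy]
      omega
    have hthy : thS 4 Nc co y + 1 = ((co y).1 - 4) + (j - (co y).1 - 4) + 1 := by
      unfold thS
      rw [if_neg hJy, show (co y).2 = j - (co y).1 by omega]
    have h3 := cst_stair (w := 4) (L := j) (h := thS 4 Nc co y + 1) h0.chart hy (by omega)
      (by omega)
    have h4 := hm (co y).1 (by rw [Finset.mem_Icc]; omega)
    have h5 : deC j (co y).1 = cst 4 (fun _ => thS 4 Nc co y + 1) y := by
      rw [h3, hthy]
      rfl
    rw [h5] at h4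
    refine h4.trans ?_
    have h6 : cst 4 (fun _ => thS 4 Nc co y + 1) y =
        ∑ v ∈ natS Nc co, ez 4 (fun _ => thS 4 Nc co y + 1) y v := by
      unfold cst
      symm
      refine Finset.sum_subset (Finset.subset_univ _) fun v _ hv => ?_
      unfold ez
      rw [if_neg]
      intro hyv
      exact hv (mem_natS.mpr (Or.inl (h0.chart.up y hy v hyv)))
    rw [h6]
    refine Finset.sum_le_sum fun v _ => ?_
    refine le_trans ?_ (ez_le (i := 4) (h := fun _ => e z) hV (z := z) (by omega)
      (Or.inr le_rfl) v)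
    unfold ez
    split_ifs with g1 g2
    · refine min_le_min ?_ le_rfl
      show thS 4 Nc co y + 1 ≤ e z
      omega
    · exact absurd (hzx1.trans (hxy.trans g1)) g2
    · exact Nat.zero_le _
    · exact Nat.zero_le _
  by_cases hzR : z ∈ rA N
  · have h3 := hr hzR
    have hJ : x ∉ junk (fun c => c.1 ≤ c.2) Nc co := by
      intro hJ
      unfold thS at he
      unfold thSg at h3
      rw [if_pos hJ] at he h3
      omega
    have hxN : x ∈ Nc := by
      rw [mem_natS] at hx
      exact hx.resolve_right hJ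
    refine key x hxN ?_ (by omega) hzx.1.le he
    unfold thS at he
    unfold thSg at h3
    rw [if_neg hJ] at he h3
    omega
  · have hzT : z ∈ twA N := by
      by_contra hcon
      exact hzR (mem_rA.mpr ⟨hzu, hcon⟩)
    have h3 := twT_spec (mem_twA.mp hzT).2
    obtain ⟨hl0, hk⟩ := Y.tw_cases hzT
    have hlev := W.twSys.lev hzT
    generalize twT N z = y0 at h3 hl0 hk hlev
    have hyx : y0 ⋖ x := (cov_of_up h3.2).mpr hzx
    have hty : topOf y0 = t := by
      rw [← hxt]
      exact (W.up h3.1 hyx.1.le).2.symm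
    have hyN : y0 ∈ natS Nc co := by
      rw [← h1]
      exact HN.mem_iff.mpr ⟨h3.1, hty⟩
    have hth : θ4 t y0 + 1 ≤ lev y0 - 4 := by
      rcases hk with h | h
      · have := h.2.th
        rw [hty] at this
        omega
      · have := h.th
        rw [hty] at this
        omega
    rw [h2'] at hth
    have hJ : y0 ∉ junk (fun c => c.1 ≤ c.2) Nc co := by
      intro hJ
      unfold thSg at hth
      rw [if_pos hJ] at hth
      omega
    have hy0 : y0 ∈ Nc := by
      rw [mem_natS] at hyN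
      exact hyN.resolve_right hJ
    have h4 := stair_th4 h0 hy0 hJ (by omega)
    have hl := h0.chart.lev y0 hy0
    have hmm : (co y0).1 ≤ (co y0).2 := h0.chart.mem y0 hy0
    have hxN := h0.chart.up y0 hy0 x hyx.1.le
    have hmx : (co x).1 ≤ (co x).2 := h0.chart.mem x hxN
    have hcx := (chart_cov h0.chart H hy0 hxN).mp hyx
    unfold Prd at hcx
    rcases Nat.lt_or_ge (co y0).1 (co y0).2 with hlt | hge
    · obtain ⟨x1, hx1, hcx1⟩ := h0.chart.low y0 hy0 ((co y0).1, (co y0).2 - 1)
        ⟨le_rfl, Nat.sub_le _ _⟩ (show (co y0).1 ≤ (co y0).2 - 1 by omega)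
      have hl1 := h0.chart.lev x1 hx1
      have a1 : (co x1).1 = (co y0).1 := by rw [hcx1]
      have a2 : (co x1).2 = (co y0).2 - 1 := by rw [hcx1]
      have hyx1 : y0 < x1 := by
        refine lt_of_le_of_ne ((h0.chart.le_iff y0 hy0 x1 hx1).mpr ⟨by omega, by omega⟩) ?_
        rintro rfl
        omega
      refine key x1 hx1 (by omega) (by omega) ((h3.2 x1).mp hyx1).le ?_
      refine lt_of_le_of_lt ?_ he
      have hJ1 : x1 ∉ junk (fun c => c.1 ≤ c.2) Nc co :=
        not_junk_above h0.chart hy0 (by omega) hyx1.le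
      have hJx : x ∉ junk (fun c => c.1 ≤ c.2) Nc co :=
        not_junk_above h0.chart hy0 (by omega) hyx.1.le
      unfold thS
      rw [if_neg hJ1, if_neg hJx]
      omega
    · have hxl := h0.chart.lev x hxN
      exact key x hxN (by omega) (by omega) hzx.1.le he

/-- the energies for `j = 12, 14, 15` -/
theorem de_14 : ∀ a ∈ Finset.Icc 1 (14 / 2), 100 ≤ deC 14 a := by decide +kernel

theorem de_15 : ∀ a ∈ Finset.Icc 1 (15 / 2), 121 ≤ deC 15 a := by decide +kernel

theorem de_12 : ∀ a ∈ Finset.Icc 1 (12 / 2), 62 ≤ deC 12 a := by decide +kernel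

end Pool.Agent.GaussPoset.W4
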