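import Pool.Agent.W_448s7s_h5.SlC
import Pool.Agent.W_448b1_h24.BC

/-!
# The windows `3` and `4` with the same natural sets (MP_448cb3_co, S7, `j = 12, 14, 15`)
-/

namespace Pool.Agent.GaussPoset.W4

set_option linter.unusedSectionVars false

open Polynomial Finset Sm

universe u

variable {P : Type u} [Fintype P] [PartialOrder P] [DecidableEq P] {r j : ℕ}

/-- the types of the components at the windows `3` and `4` with the same natural set; light: also
all late components; the stairs have the larger thresholds at window `4` -/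
inductive TypeY (j : ℕ) (t : Tops P) (N : Finset P) (θ3 θ4 : P → ℕ) : Prop
  | light (h1 : N = onlyB t) (h2 : θ3 = fun x => lev x - 3) (h2' : θ4 = fun x => lev x - 4)
      (h5 : ∀ x, x ≤ (t : P) → lev x ≤ j → x ∈ onlyB t)
  | rect (c : ℕ) (Nc : Finset P) (co : P → ℕ × ℕ) (h0 : RectNat j 4 t c Nc co)
      (h0' : RectNat j 3 t (min c 4) Nc co) (h1 : N = natR Nc co)
      (h2 : θ3 = thR 3 (min c 4) Nc co) (h2' : θ4 = thR 4 c Nc co)
      (pen : ∀ x z, x ≤ (t : P) → lev x = j → (Win.uc x).card = 2 → z ⋖ x →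
        ¬ ∀ y, z ⋖ y → y = x)
  | stair (Nc : Finset P) (co : P → ℕ × ℕ) (h0 : StairNat j 4 t Nc co)
      (h0' : StairNat j 3 t Nc co) (h1 : N = natS Nc co)
      (h2 : θ3 = thS 3 Nc co) (h2' : θ4 = thSg 2 4 Nc co)
      (pen : ∀ x z, x ≤ (t : P) → lev x = j → (Win.uc x).card = 2 → z ⋖ x →
        (∀ y, z ⋖ y → y = x) → (co x).2 = (co x).1 + 1 ∨ (co x).2 = (co x).1 + 3)

lemma rectNat_three {t : Tops P} {c : ℕ} {Nc : Finset P} {co : P → ℕ × ℕ}
    (R : RectNat j 4 t c Nc co) : RectNat j 3 t (min c 4) Nc co := by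
  have e1 := R.b_two
  have e2 := R.b_le
  obtain ⟨x, hx, hcx⟩ := R.cell
  obtain ⟨y, hy, hcy⟩ := R.chart.low x hx (min c 4 - 1, 3)
    (by rw [hcx]; exact ⟨by simp only; omega, by simp only; omega⟩) trivial
  refine ⟨R.chart, R.max, R.strip, by omega, by omega, ⟨y, hy, hcy⟩, ?_⟩
  rcases R.rows with h | h
  · left; omega
  · rcases Nat.lt_or_ge c 4 with h' | h'
    · right
      intro x hx
      have := h x hx
      omega
    · left; omega

lemma stairNat_three {t : Tops P} {Nc : Finset P} {co : P → ℕ × ℕ}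
    (R : StairNat j 4 t Nc co) : StairNat j 3 t Nc co := by
  obtain ⟨x, hx, hcx⟩ := R.cell
  obtain ⟨y, hy, hcy⟩ := R.chart.low x hx (2 * (3 / 2), 3)
    (by rw [hcx]; exact ⟨by simp only; omega, by simp only; omega⟩)
    (by show 2 * (3 / 2) ≤ 3; omega)
  exact ⟨R.chart, R.max, R.strip, ⟨y, hy, hcy⟩⟩

section Exists

open Cp

/-- every component which is light at window `3` or has a natural shape has a type -/
theorem exists_typeY (h : Win.GoodTo P r j) (hj : 8 ≤ j) {t : Tops P}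
    {lo hi : ℕ → ℕ} {e : ℕ → ℕ → P} (C : Comp j (t : P) lo hi e)
    (hT : lo 3 = hi 3 ∨ RectShape j lo hi ∨ StairShape j lo hi ∨
      StairShape j (fun k => k - hi k) (fun k => k - lo k)) :
    ∃ N θ3 θ4, TypeY j t N θ3 θ4 ∧ TypeX j 3 t (hi 3 - lo 3 + 1) N θ3 ∧
      TopType j 3 t (hi 3 - lo 3 + 1) N θ3 := by
  have H := h.H
  have hg := h.good
  have hlo := C.lo_le 3 (by omega)
  obtain ⟨j', rfl⟩ : ∃ j', j = j' + 1 := ⟨j - 1, by omega⟩
  by_cases hl : lo 3 = hi 3
  · have h5 : ∀ x, x ≤ (t : P) → lev x ≤ j' + 1 → x ∈ onlyB t := by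
      intro x hx hxi
      rw [mem_onlyB]
      intro s hs hxs
      exact top_eq H hg hxi hs t.2 hxs hx
    rw [hl, Nat.sub_self]
    exact ⟨_, _, _, TypeY.light rfl rfl rfl h5, TypeX.light rfl rfl rfl h5,
      type_light H hg C (by omega)⟩
  · have hlt : lo 3 < hi 3 := by omega
    have hii : hi 3 ≤ 3 := C.hi_le (by omega)
    have hii4 : hi 4 ≤ 4 := C.hi_le (by omega)
    have hls : lo 4 = lo 3 ∨ lo 4 = lo 3 + 1 := C.lo_step 3 (by omega)
    have hhs : hi 4 = hi 3 ∨ hi 4 = hi 3 + 1 := C.hi_step 3 (by omega)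
    rcases hT with hT | hT | hT | hT
    · exact absurd hT hl
    · have f1 : lo 4 = 0 ∨ lo 4 = lo 3 + 1 := hT.lo 3 (by omega)
      have f2 : hi 4 = 4 ∨ hi 4 = hi 3 := hT.hi 3 (by omega)
      have f3 : lo 4 = 0 ∨ hi 4 = 4 := by
        by_contra hcon
        have e1 := shape_lo C hT.lo (l := 4) (by omega) 4 (by omega)
        have e2 := shape_hi C hT.hi (l := 4) (by omega) 4 (by omega)
        have e3 := C.lo_le (4 + 4) (by omega)
        omega
      have hb : min (hi 4 - lo 4 + 1) 4 = hi 3 - lo 3 + 1 := by omega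
      obtain ⟨N, co, h1, -⟩ := exists_rect C H hg H.gradedBelow hT (i := 4) (by omega) (by omega)
      have h3 := rectNat_three h1
      have pen : ∀ x z, x ≤ (t : P) → lev x = j' + 1 → (Win.uc x).card = 2 → z ⋖ x →
          ¬ ∀ y, z ⋖ y → y = x := fun x z hxt hlx hx2 hzx honly =>
        rectShape_no_pendant h (by omega) t.2 C hT hlx hxt hx2 hzx honly
      refine ⟨_, _, _, TypeY.rect _ N co h1 h3 rfl rfl rfl pen, ?_, ?_⟩
      · rw [← hb]
        exact TypeX.rect N co h3 rfl rfl pen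
      · rw [← hb]
        exact TopType.rect N co h3 rfl rfl (by omega)
    · have h2 : hi 3 = 3 / 2 := hT.hi 3 (by omega)
      have h0 : lo 4 = 0 := by
        by_contra hcon
        have e1 := shape_lo C hT.lo (l := 4) (by omega) 4 (by omega)
        have e2 := hT.hi (4 + 4) (by omega)
        have e3 := C.lo_le (4 + 4) (by omega)
        omega
      obtain ⟨N, co, h1, h1'⟩ := exists_stair C H hg H.gradedBelow hT (i := 4) (by omega)
      have h3 := stairNat_three h1
      have hb : hi 3 - lo 3 + 1 = 3 / 2 + 1 := by omega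
      have pen : ∀ x z, x ≤ (t : P) → lev x = j' + 1 → (Win.uc x).card = 2 → z ⋖ x →
          (∀ y, z ⋖ y → y = x) → (co x).2 = (co x).1 + 1 ∨ (co x).2 = (co x).1 + 3 := by
        intro x z hxt hlx hx2 hzx honly
        rw [h1' x (mem_lowPart.mpr ⟨hxt, by omega⟩)]
        exact stairShape_pendant h (by omega) t.2 C hT hlx hxt hx2 hzx honly
      exact ⟨_, _, _, TypeY.stair N co h1 h3 rfl rfl rfl pen,
        TypeX.stair N co h3 rfl rfl hb (by omega) pen,
        TopType.stair N co h3 rfl rfl hb (by omega) (by omega)⟩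
    · have C' := comp_swap C
      have h2 : 3 - lo 3 = 3 / 2 := hT.hi 3 (by omega)
      have h0 : 4 - hi 4 = 0 := by
        by_contra hcon
        have e1 := shape_lo C' hT.lo (l := 4) (by show 1 ≤ 4 - hi 4; omega) 4 (by omega)
        have e2 := hT.hi (4 + 4) (by omega)
        have e3 := C'.lo_le (4 + 4) (by omega)
        omega
      obtain ⟨N, co, h1, h1'⟩ := exists_stair C' H hg H.gradedBelow hT (i := 4) (by omega)
      have h3 := stairNat_three h1
      have hb : hi 3 - lo 3 + 1 = 3 / 2 + 1 := by omega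
      have pen : ∀ x z, x ≤ (t : P) → lev x = j' + 1 → (Win.uc x).card = 2 → z ⋖ x →
          (∀ y, z ⋖ y → y = x) → (co x).2 = (co x).1 + 1 ∨ (co x).2 = (co x).1 + 3 := by
        intro x z hxt hlx hx2 hzx honly
        rw [h1' x (mem_lowPart.mpr ⟨hxt, by omega⟩)]
        exact stairShape_pendant h (by omega) t.2 C' hT hlx hxt hx2 hzx honly
      exact ⟨_, _, _, TypeY.stair N co h1 h3 rfl rfl rfl pen,
        TypeX.stair N co h3 rfl rfl hb (by omega) pen,
        TopType.stair N co h3 rfl rfl hb (by omega) (by omega)⟩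

end Exists

/-- the local data of the components at window `4` -/
lemma TypeY.natTop {t : Tops P} {N : Finset P} {θ3 θ4 : P → ℕ} (T : TypeY j t N θ3 θ4)
    (hgr : GradedBelow P) (hj : 4 ≤ j) (hlev : ∃ x ≤ (t : P), lev x = 4) :
    ∃ b B, NatTop 4 t b N θ4 B := by
  rcases T with ⟨h1, h2, h2', h5⟩ | ⟨c, Nc, co, h0, h0', h1, h2, h2', pen⟩ |
    ⟨Nc, co, h0, h0', h1, h2, h2', pen⟩
  · subst h1 h2'
    exact ⟨_, _, natTop_light hgr (fun x hx hxi => h5 x hx (hxi.trans hj)) hlev⟩
  · subst h1 h2'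
    exact ⟨_, _, h0.natTop hgr hj⟩
  · subst h1 h2'
    exact ⟨_, _, h0.natTop_less hgr le_rfl hj⟩

end Pool.Agent.GaussPoset.W4
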