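import Pool.Agent.W_448w4_h70.WA

/-!
# The numbers of the windows `3`, `4` (MP_448cb3_co, S7, `j = 12, 14, 15`)
-/

namespace Pool.Agent.GaussPoset.W4

set_option linter.unusedSectionVars false

open Polynomial Finset Sm

universe u

variable {P : Type u} [Fintype P] [PartialOrder P] [DecidableEq P] {r j K V3 : ℕ}

/-- the check for a cell `(a, L - a)` of a stair -/
abbrev SB (j K V3 L a : ℕ) : Prop :=
  K + 1 < stC 4 L a ∨ ((K < stC 4 L a ∨ stC 3 L a < V3) ∧ K < stC 4 L a + 2 * (L - 4 - 1) ∧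
    stC 3 L a ≤ V3 ∧ (L = 2 * a ∨ (L = j + 1 ∧ L ≠ 2 * a + 2 ∧ L ≠ 2 * a + 4)))

/-- the check for a cell `(a, L - a)` of a rectangle -/
abbrev RB (j K V3 L a : ℕ) : Prop :=
  K + 1 < reC 4 L a ∨ (min a (L - a) = 2 ∧ (K < reC 4 L a ∨ reC 3 L a < V3) ∧
    K < reC 4 L a + 2 * (L - 4 - 1) ∧ reC 3 L a ≤ V3 ∧ L = j + 1)

/-- the numbers of the windows `3`, `4`: the cap `K` at window `4`, the least cost `V3` at
window `3` -/
structure Nm (j K V3 : ℕ) : Prop where
  hj : 12 ≤ j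
  k3 : 2 * K < 3 * (j - 3) ^ 2 + 3 * (j - 3)
  kk : K < (j - 3 + 3) ^ 2
  st1 : ∀ L ∈ Finset.Icc (j + 1) (j + 2), ∀ a ∈ Finset.Icc 2 (L / 2), SB j K V3 L a
  st3 : ∀ a ∈ Finset.Icc 2 ((j + 3) / 2), K + 1 < stC 4 (j + 3) a
  re1 : ∀ L ∈ Finset.Icc (j + 1) (j + 2), ∀ a ∈ Finset.Icc 2 (L - 2), RB j K V3 L a
  re3 : ∀ a ∈ Finset.Icc 2 (j + 1), K + 1 < reC 4 (j + 3) a
  fl : j % 2 = 1 → K < flC 4 j
  fo1 : j % 2 = 0 → foC 3 j < V3
  fo2 : j % 2 = 0 → K < foC 4 j + foE 4 j ∨ foC 3 j + foE 3 j < V3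
  own : ∀ t ∈ Finset.range 3, ∀ m ∈ Finset.range 3, (m = 0 ∨ t = 2) →
    (j - 3 + t) ^ 2 + (j - 3) * m ≤ K →
      (if m = 0 then (j - 3 + t) ^ 2 else K) + (2 * (j - 3 + t) + 1 + m) < V3
  row : ∀ t ∈ Finset.range 3, (j - 3 + t) ^ 2 + (j - 3 + t) ≤ K + 1 →
    (j - 3 + t + 1) ^ 2 + (j - 3 + t + 1) ≤ V3 ∧
      ((j - 3 + t) ^ 2 + (j - 3 + t) ≤ K → (j - 3 + t + 1) ^ 2 + (j - 3 + t + 1) < V3)

/-- deep cells of the stairs -/
theorem sdeep4 (n : Nm j K V3) {t : P} {Nc : Finset P} {co : P → ℕ × ℕ}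
    (C : Chart t (fun c => c.1 ≤ c.2) Nc co) {x : P}
    (hx : x ∈ Nc) (h1 : 2 ≤ (co x).1) (hlx : j + 1 ≤ lev x) :
    K + 1 < cst 4 (fun _ => lev x - 4 - 1) x + (lev x - 4 - 1) ∨
    ((K < cst 4 (fun _ => lev x - 4 - 1) x + (lev x - 4 - 1) ∨
        cst 3 (fun _ => lev x - 3 - 1) x + (lev x - 3 - 1) < V3) ∧
      K < cst 4 (fun _ => lev x - 4 - 1) x + 3 * (lev x - 4 - 1) ∧
      cst 3 (fun _ => lev x - 3 - 1) x + (lev x - 3 - 1) ≤ V3 ∧
      ((co x).1 = (co x).2 ∨ (lev x = j + 1 ∧ (co x).2 ≠ (co x).1 + 2 ∧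
        (co x).2 ≠ (co x).1 + 4))) := by
  have hj := n.hj
  have hl := C.lev x hx
  have hm : (co x).1 ≤ (co x).2 := C.mem x hx
  rcases Nat.lt_or_ge (lev x) (j + 3) with hlt | hge
  · have e4 : stC 4 (lev x) (co x).1 = cst 4 (fun _ => lev x - 4 - 1) x + (lev x - 4 - 1) := by
      rw [cst_stair (w := 4) (h := lev x - 4 - 1) C hx rfl (by omega)]
      rfl
    have e3 : stC 3 (lev x) (co x).1 = cst 3 (fun _ => lev x - 3 - 1) x + (lev x - 3 - 1) := by
      rw [cst_stair (w := 3) (h := lev x - 3 - 1) C hx rfl (by omega)]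
      rfl
    have h := n.st1 (lev x) (by rw [Finset.mem_Icc]; omega) (co x).1
      (by rw [Finset.mem_Icc]; omega)
    unfold SB at h
    rw [e4, e3] at h
    rcases h with h | ⟨b1, b2, b3, b4⟩
    · exact Or.inl h
    · refine Or.inr ⟨b1, by omega, b3, ?_⟩
      omega
  · left
    obtain ⟨y, hy, hcy⟩ := C.low x hx (j + 3 - min (co x).2 (j + 1), min (co x).2 (j + 1))
      ⟨by simp only; omega, by simp only; omega⟩
      (show j + 3 - min (co x).2 (j + 1) ≤ min (co x).2 (j + 1) by omega)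
    have hly := C.lev y hy
    have hxy : x ≤ y := by
      rw [C.le_iff x hx y hy, hcy]
      exact ⟨by simp only; omega, by simp only; omega⟩
    have hy1 : (co y).1 = j + 3 - min (co x).2 (j + 1) := by rw [hcy]
    have hy2 : (co y).2 = min (co x).2 (j + 1) := by rw [hcy]
    have hly' : lev y = j + 3 := by omega
    have h2 := cst_up (w := 4) (h := lev x - 4 - 1) (h' := j + 3 - 4 - 1) hxy (by omega)
    have h3 := cst_stair (w := 4) (h := j + 3 - 4 - 1) C hy hly' (by omega)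
    have h4 := n.st3 (co y).1 (by rw [Finset.mem_Icc]; omega)
    unfold stC at h4
    rw [h3] at h2
    omega

/-- deep cells of the rectangles -/
theorem rdeep4 (n : Nm j K V3) {t : P} {Nc : Finset P} {co : P → ℕ × ℕ}
    (C : Chart t (fun _ => True) Nc co) {x : P}
    (hx : x ∈ Nc) (h1 : 2 ≤ (co x).1) (h2 : 2 ≤ (co x).2) (hlx : j + 1 ≤ lev x) {h : ℕ}
    (hh : h + min (min (co x).1 (co x).2) 4 = lev x - 4 + 1) :
    K + 1 < cst 4 (fun _ => h) x + h ∨
    (h = lev x - 4 - 1 ∧ min (co x).1 (co x).2 = 2 ∧ (K < cst 4 (fun _ => h) x + h ∨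
        cst 3 (fun _ => lev x - 3 - 1) x + (lev x - 3 - 1) < V3) ∧
      K < cst 4 (fun _ => h) x + 3 * h ∧
      cst 3 (fun _ => lev x - 3 - 1) x + (lev x - 3 - 1) ≤ V3 ∧ lev x = j + 1) := by
  have hj := n.hj
  have hl := C.lev x hx
  have hsub : lev x - (co x).1 = (co x).2 := by omega
  have hhe : h = lev x - 4 + 1 - min (min (co x).1 (lev x - (co x).1)) 4 := by
    rw [hsub]; omega
  rcases Nat.lt_or_ge (lev x) (j + 3) with hlt | hge
  · have e4 : reC 4 (lev x) (co x).1 = cst 4 (fun _ => h) x + h := by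
      rw [cst_rect (w := 4) (h := h) C hx rfl (by omega), hhe]
      rfl
    have h' := n.re1 (lev x) (by rw [Finset.mem_Icc]; omega) (co x).1
      (by rw [Finset.mem_Icc]; omega)
    unfold RB at h'
    rw [e4] at h'
    rcases h' with h' | ⟨b0, b1, b2, b3, b4⟩
    · exact Or.inl h'
    · right
      rw [hsub] at b0
      have e3 : reC 3 (lev x) (co x).1 =
          cst 3 (fun _ => lev x - 3 - 1) x + (lev x - 3 - 1) := by
        rw [cst_rect (w := 3) (h := lev x - 3 - 1) C hx rfl (by omega)]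
        unfold reC
        rw [hsub, b0, show lev x - 3 + 1 - min 2 3 = lev x - 3 - 1 by omega]
      rw [e3] at b1 b3
      have hh' : h = lev x - 4 - 1 := by omega
      exact ⟨hh', b0, b1, by omega, b3, b4⟩
  · left
    obtain ⟨y, hy, hcy⟩ := C.low x hx (j + 3 - min (co x).2 (j + 1), min (co x).2 (j + 1))
      ⟨by simp only; omega, by simp only; omega⟩ trivial
    have hly := C.lev y hy
    have hxy : x ≤ y := by
      rw [C.le_iff x hx y hy, hcy]
      exact ⟨by simp only; omega, by simp only; omega⟩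
    have hy1 : (co y).1 = j + 3 - min (co x).2 (j + 1) := by rw [hcy]
    have hy2 : (co y).2 = min (co x).2 (j + 1) := by rw [hcy]
    have hly' : lev y = j + 3 := by omega
    have h3 := cst_up (w := 4) (h := h)
      (h' := j + 3 - 4 + 1 - min (min (co y).1 (j + 3 - (co y).1)) 4) hxy (by omega)
    have h4 := cst_rect (w := 4)
      (h := j + 3 - 4 + 1 - min (min (co y).1 (j + 3 - (co y).1)) 4) C hy hly' (by omega)
    have h5 := n.re3 (co y).1 (by rw [Finset.mem_Icc]; omega)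
    unfold reC at h5
    rw [h4] at h3
    omega

/-- the five sets of numbers -/
theorem nm_14_48 : Nm 14 (11 ^ 2 + 48) (12 ^ 2 + 54) := by
  constructor <;> decide +kernel

theorem nm_14_65 : Nm 14 (11 ^ 2 + 65) (12 ^ 2 + 75) := by
  constructor <;> decide +kernel

theorem nm_15_64 : Nm 15 (12 ^ 2 + 64) (13 ^ 2 + 77) := by
  constructor <;> decide +kernel

theorem nm_15_70 : Nm 15 (12 ^ 2 + 70) (13 ^ 2 + 78) := by
  constructor <;> decide +kernel

theorem nm_12_50 : Nm 12 (9 ^ 2 + 50) (10 ^ 2 + 61) := by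
  constructor <;> decide +kernel

end Pool.Agent.GaussPoset.W4
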