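import Pool.Agent.W_448w4_h70.WC

/-!
# The windows `3`, `4`: labels, twins, deep covers (MP_448cb3_co, S7, `j = 12, 14, 15`)
-/

namespace Pool.Agent.GaussPoset.W4

set_option linter.unusedSectionVars false

open Polynomial Finset Sm

universe u

variable {P : Type u} [Fintype P] [PartialOrder P] [DecidableEq P] {r j K3 K V3 : ℕ}
  {N : Tops P → Finset P} {b : Tops P → ℕ} {θ3 θ4 : Tops P → P → ℕ}

lemma Y4.thA_nat (Y : Y4 r j K3 K V3 N b θ3 θ4) {x : P} (hx : x ∉ unnat N) :
    thA N θ4 x = θ4 (topOf x) x := thX_not (Y.W.not_tw hx)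

lemma thA_tw4 {x : P} (hx : x ∈ twA N) :
    thA N θ4 x = θ4 (topOf (twT N x)) (twT N x) := thX_of hx

/-- twins are not straight -/
lemma Y4.tw_cases (Y : Y4 r j K3 K V3 N b θ3 θ4) {x : P} (hx : x ∈ twA N) :
    j < lev (twT N x) ∧ ((Row1 j 3 N θ3 (twT N x) ∧ Row1 j 4 N θ4 (twT N x)) ∨
      Dy j K V3 N θ3 θ4 (twT N x)) := by
  have h1 := mem_twA.mp hx
  have h3 := twT_spec h1.2
  have h4 := Y.W.lt_lev h1.1
  have h5 := Y.W.twSys.lev hx
  refine ⟨by omega, ?_⟩
  rcases Y.cases h3.1 (by omega) with h | h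
  · exact absurd h3.2 (h.1.tw x h1.1)
  · exact h

theorem Y4.twn (Y : Y4 r j K3 K V3 N b θ3 θ4) {x : P} (hx : x ∈ twA N) :
    Twn 4 (thA N θ4) (twT N x, x) := by
  have h1 := mem_twA.mp hx
  have h3 := twT_spec h1.2
  obtain ⟨hl, hk⟩ := Y.tw_cases hx
  have hj := Y.n.hj
  have e1 : thA N θ4 (twT N x) = θ4 (topOf (twT N x)) (twT N x) := Y.thA_nat h3.1
  have e2 := thA_tw4 (θ4 := θ4) hx
  have hm : ∀ y, twT N x < y → θ4 (topOf y) y ≤ θ4 (topOf (twT N x)) (twT N x) + 1 := by
    rcases hk with h | h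
    · exact h.2.mono
    · exact h.mono
  have ht : θ4 (topOf (twT N x)) (twT N x) + 1 ≤ lev (twT N x) - 4 ∧
      lev (twT N x) - 4 ≤ θ4 (topOf (twT N x)) (twT N x) + 4 := by
    rcases hk with h | h
    · have := h.2.th
      omega
    · have := h.th
      exact ⟨by omega, h.th4⟩
  refine ⟨?_, h3.2, ?_, ?_, ?_, ?_⟩
  · intro h
    simp only at h
    exact h3.1 (by rw [h]; exact h1.1)
  · simp only
    rw [e1]
    omega
  · simp only
    rw [e1, e2]
  · simp only
    rw [e1]
    exact ht.1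
  · intro y hy
    simp only at hy ⊢
    rw [e1, Y.thA_nat (Y.W.up h3.1 hy.le).1]
    exact hm y hy

/-- cost of the twins of cells of row `1` -/
lemma Y4.tcst_row1 (Y : Y4 r j K3 K V3 N b θ3 θ4) {x : P} (hx : x ∈ twA N)
    (hk : Row1 j 4 N θ4 (twT N x)) {a : ℕ} (ha : lev x = 4 + a) :
    tcst 4 (thA N θ4) (twT N x, x) + 1 = a ^ 2 + a := by
  have h1 := mem_twA.mp hx
  have h3 := twT_spec h1.2
  have hl := Y.W.twSys.lev hx
  have e1 : thA N θ4 (twT N x) = θ4 (topOf (twT N x)) (twT N x) := Y.thA_nat h3.1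
  have h4 := hk.th
  have h5 : thA N θ4 (twT N x) + 1 = a := by omega
  rw [tcst_cst (Y.twn hx)]
  simp only
  rw [h5, cst_eq_ful (by omega), ful_two (a := a) (by omega)
    fun k hk1 hk2 => hk.nab k hk1.le hk2]
  omega

/-- a twin of a cheap cell does not exist -/
lemma Y4.no_cheap_twin (Y : Y4 r j K3 K V3 N b θ3 θ4) {x : P} (hx : x ∈ twA N)
    (hC : Ch K V3 N θ3 θ4 (twT N x)) : False := by
  have h1 := mem_twA.mp hx
  have h3 := twT_spec h1.2
  have h4 := Y.m3' x hx
  have hl := (Y.tw_cases hx).1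
  have hj := Y.n.hj
  rw [tcst_cst (Y.W.twn hx)] at h4
  simp only at h4
  rw [Y.W.thA_nat h3.1, hC.t3] at h4
  have h5 := hC.t3
  have h6 := hC.b3
  omega

/-- twins are expensive -/
theorem Y4.out_tw (Y : Y4 r j K3 K V3 N b θ3 θ4) {x : P} (hx : x ∈ twA N) :
    K < tcst 4 (thA N θ4) (twT N x, x) := by
  have hj := Y.n.hj
  have h1 := mem_twA.mp hx
  have h3 := twT_spec h1.2
  obtain ⟨hl, hk⟩ := Y.tw_cases hx
  have hl2 := Y.W.twSys.lev hx
  rcases hk with ⟨hk3, hk4⟩ | hD
  · obtain ⟨a, ha⟩ : ∃ a, lev x = 4 + a := ⟨lev x - 4, by omega⟩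
    have h5 := Y.tcst_row1 hx hk4 ha
    have h6 := Y.W.tcst_row1 hx hk3 (a := a + 1) (by omega)
    have h7 := Y.m3' x hx
    by_contra hcon
    obtain ⟨t, ht⟩ : ∃ t, a = j - 3 + t := ⟨a - (j - 3), by omega⟩
    have h8 : t < 3 := by
      by_contra h9
      have h10 : (j - 3 + 3) ^ 2 ≤ a ^ 2 := Nat.pow_le_pow_left (by omega) 2
      have := Y.n.kk
      omega
    have h9 := Y.n.row t (Finset.mem_range.mpr h8) (by rw [← ht]; omega)
    rw [← ht] at h9
    omega
  · have e1 : thA N θ4 (twT N x) = θ4 (topOf (twT N x)) (twT N x) := Y.thA_nat h3.1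
    rcases hD.alt (by omega) with h | h
    · rw [tcst_cst (Y.twn hx)]
      simp only
      rw [e1]
      omega
    · exact (Y.no_cheap_twin hx h).elim

/-- the natural element of an element off the far set, window `4` -/
lemma Y4.bs (Y : Y4 r j K3 K V3 N b θ3 θ4) {x : P} (hx : x ∉ rA N) :
    Bs N θ4 x (GaussPoset.bs N x) := by
  classical
  unfold GaussPoset.bs
  rcases not_mem_rA.mp hx with h | h
  · rw [if_neg (Y.W.not_tw h)]
    exact ⟨h, rfl, Y.thA_nat h, fun k => Or.inl rfl, fun v => Iff.rfl⟩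
  · rw [if_pos h]
    have h1 := Y.W.twSys.up x h
    refine ⟨Y.W.twSys.nat x h, Y.W.twSys.lev h, thA_tw4 h, fun k => ?_, h1⟩
    rcases Nat.lt_or_ge k (Pool.Agent.GaussPoset.lev x) with h2 | h2
    · exact Or.inl (nab_congr_up h1 h2)
    · exact Or.inr h2

lemma Y4.hA_le (Y : Y4 r j K3 K V3 N b θ3 θ4) {z x : P} (hx : x ∉ rA N) (hzx : z ⋖ x) :
    hA N θ4 z ≤ θ4 (topOf (GaussPoset.bs N x)) (GaussPoset.bs N x) + 1 := by
  rw [← (Y.bs hx).th]
  exact hcan_le hx hzx

lemma Y4.hA_spec (Y : Y4 r j K3 K V3 N b θ3 θ4) {z : P} (hz : z ∈ bdR (rA N)) :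
    ∃ x, x ∉ rA N ∧ z ⋖ x ∧
      hA N θ4 z = θ4 (topOf (GaussPoset.bs N x)) (GaussPoset.bs N x) + 1 := by
  obtain ⟨x, h1, h2, h3⟩ := hcan_spec (θ := thA N θ4) hz
  refine ⟨x, h1, h2, ?_⟩
  rw [← (Y.bs h1).th]
  exact h3

/-- elements below a cheap cell -/
theorem Y4.cheap_cover (Y : Y4 r j K3 K V3 N b θ3 θ4) {z x1 : P} (hz : z ∈ bdR (rA N))
    (hx1 : x1 ∉ unnat N) (hzx : z ⋖ x1) (hlx : j + 1 ≤ lev x1) (hC : Ch K V3 N θ3 θ4 x1)
    (he : hA N θ4 z = θ4 (topOf x1) x1 + 1) : K < cst 4 (hA N θ4) z := by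
  classical
  have W := Y.W
  have H := W.gt.H
  have hj := Y.n.hj
  have hzR := (mem_bdR.mp hz).1
  have e1 := (H.covBy_iff.mp hzx).2
  have hh := he.trans hC.t4
  by_cases ho : ∀ q, z ⋖ q → q = x1
  · -- a pendant
    rcases hC.b1 with h | h
    · have h9 := cst_only (i := 4) (h := hA N θ4) H.gradedBelow hzx ho
      rw [h9, hh, Nat.min_eq_left (by omega)]
      exact h
    · exfalso
      obtain ⟨x0, g1, g2, g3⟩ := W.hA_spec hz
      have hbs : GaussPoset.bs N x1 = x1 := by
        unfold GaussPoset.bs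
        rw [if_neg (W.not_tw hx1)]
      rw [ho x0 g2, hbs, hC.t3] at g3
      have h9 := cst_only (i := 3) (h := hA N θ3) H.gradedBelow hzx ho
      have h10 := Y.m3 z hz
      rw [h9, g3, Nat.min_eq_left (by omega)] at h10
      omega
  · push Not at ho
    obtain ⟨x2, hzx2, hne⟩ := ho
    have e2 := (H.covBy_iff.mp hzx2).2
    have hlx2 : lev x2 = lev x1 := by omega
    by_cases hq : ∃ q, x2 ⋖ q ∧ ¬ x1 ≤ q
    · -- another element of the level above
      obtain ⟨q, hq1, hq2⟩ := hq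
      have e3 := (H.covBy_iff.mp hq1).2
      obtain ⟨a, ha⟩ : ∃ a, lev x1 = 4 + (a + 1) := ⟨lev x1 - 5, by omega⟩
      have hha : hA N θ4 z = a := by omega
      have hmono : ∀ k, nab k x1 ≤ nab k z := fun k => nab_mono hzx.1.le
      have n1 : nab (4 + a) x1 + 1 ≤ nab (4 + a) z := by
        unfold nab
        have h11 : insert q ((lv P (4 + a)).filter (fun y => x1 ≤ y)) ⊆
            (lv P (4 + a)).filter (fun y => z ≤ y) := by
          intro y hy
          rw [mem_insert, mem_filter, mem_lv] at hy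
          rw [mem_filter, mem_lv]
          rcases hy with rfl | hy
          · exact ⟨by omega, hzx2.1.le.trans hq1.1.le⟩
          · exact ⟨hy.1, hzx.1.le.trans hy.2⟩
        have h12 := Finset.card_le_card h11
        rw [Finset.card_insert_of_notMem (by
          rw [mem_filter]
          exact fun h => hq2 h.2)] at h12
        exact h12
      have n2 : 2 ≤ nab (4 + (a + 1)) z :=
        two_le_nab hzx.1.le hzx2.1.le (by omega) (by omega) (Ne.symm hne)
      have n3 : nab (4 + (a + 1)) x1 = 1 := by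
        rw [← ha]
        exact nab_self
      have n4 : nab (4 + (a + 2)) z = 1 := by
        rw [show 4 + (a + 2) = lev z by omega]
        exact nab_self
      have h7 := hC.b2
      rw [show lev x1 - 4 - 1 = a by omega,
        cst_shift (i := 4) (a := a + 1) (h := fun _ => a) (x := x1) (by omega),
        Finset.sum_range_succ, Finset.sum_range_succ, n3] at h7
      rw [cst_shift (i := 4) (a := a + 2) (h := hA N θ4) (x := z) (by omega), hha,
        Finset.sum_range_succ, Finset.sum_range_succ, Finset.sum_range_succ, n4]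
      have h8 : ∑ n ∈ range a, min a n * nab (4 + n) x1 ≤
          ∑ n ∈ range a, min a n * nab (4 + n) z :=
        Finset.sum_le_sum fun n _ => Nat.mul_le_mul_left _ (hmono _)
      have m1 : min a (a + 1) = a := by omega
      have m2 : min a (a + 1 + 1) = a := by omega
      have m3 : min a (a + 2) = a := by omega
      rw [m1] at h7 ⊢
      rw [Nat.min_self] at h7 ⊢
      have h9 : a * (nab (4 + a) x1 + 1) ≤ a * nab (4 + a) z := Nat.mul_le_mul_left _ n1
      have h10 : a * 2 ≤ a * nab (4 + (a + 1)) z := Nat.mul_le_mul_left _ n2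
      rw [Nat.mul_add] at h9
      omega
    · exfalso
      push Not at hq
      have hq' : ∀ q, x2 ⋖ q → x1 ⋖ q := by
        intro q hq1
        have e3 := (H.covBy_iff.mp hq1).2
        refine H.covBy_iff.mpr ⟨lt_of_le_of_ne (hq q hq1) (fun h => ?_), by omega⟩
        have := congrArg lev h
        omega
      obtain ⟨q, hq1, -⟩ := Hul.exists_cov (w := x2) (v := (topOf x2 : P))
        (lt_of_le_of_ne (le_topOf x2) (by
          intro h
          have := (topOf x2).2
          rw [← h] at this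
          omega))
      by_cases hx2 : x2 ∈ unnat N
      · by_cases ht2 : x2 ∈ twA N
        · have h3 := twT_spec (mem_twA.mp ht2).2
          have hyq : twT N x2 ⋖ q := (cov_of_up h3.2).mpr hq1
          have hyx : twT N x2 = x1 := by
            by_contra hcon
            refine Win.dc_three H hq1 hyq (hq' q hq1) ?_ hne hcon
            intro h
            exact h3.1 (h ▸ hx2)
          exact Y.no_cheap_twin ht2 (by rw [hyx]; exact hC)
        · have key : (∀ v, x1 < v ↔ x2 < v) → False := fun h =>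
            ht2 (mem_twA.mpr ⟨hx2, x1, hx1, h⟩)
          rcases hC.b4 with ⟨p, hp⟩ | h4
          · have hqp : q = p := hp q (hq' q hq1)
            refine key (twin_of_single (x := p) (fun v => ⟨hp v, ?_⟩) (fun v => ⟨fun h =>
              hp v (hq' v h), ?_⟩))
            · rintro rfl
              rw [← hqp]
              exact hq' q hq1
            · rintro rfl
              rw [← hqp]
              exact hq1
          · by_cases ho2 : ∀ y, x2 ⋖ y → y = q
            · have hqn : q ∉ rA N := not_mem_rA.mpr (Or.inl (W.up hx1 (hq' q hq1).1.le).1)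
              exact h4 q (hq' q hq1) x2 (mem_bdR.mpr ⟨mem_rA.mpr ⟨hx2, ht2⟩, q, hqn, hq1⟩)
                hq1 ho2
            · push Not at ho2
              obtain ⟨q2, hq3, hq4⟩ := ho2
              exact key (twin_of_pair H (hq' q hq1) (hq' q2 hq3) hq1 hq3 (Ne.symm hq4))
      · exact W.no_adj hzR hx1 hx2 hzx hzx2 (Ne.symm hne) (hq' q hq1) hq1

/-- a boundary element with a deep cover of level greater than `j` is expensive -/
theorem Y4.deep_cover (Y : Y4 r j K3 K V3 N b θ3 θ4) {z : P} (hz : z ∈ bdR (rA N)) {x : P}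
    (hx : x ∉ rA N) (hzx : z ⋖ x) (hlx : j + 1 ≤ lev x)
    (hD : Dy j K V3 N θ3 θ4 (GaussPoset.bs N x)) : K < cst 4 (hA N θ4) z := by
  have H := Y.W.gt.H.gradedBelow
  have hj := Y.n.hj
  -- a deep cover which defines the label
  obtain ⟨x1, h1, h2, h3, h4⟩ : ∃ x1, x1 ∉ rA N ∧ z ⋖ x1 ∧
      Dy j K V3 N θ3 θ4 (GaussPoset.bs N x1) ∧
      hA N θ4 z = θ4 (topOf (GaussPoset.bs N x1)) (GaussPoset.bs N x1) + 1 := by
    by_cases he : hA N θ4 z = θ4 (topOf (GaussPoset.bs N x)) (GaussPoset.bs N x) + 1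
    · exact ⟨x, hx, hzx, hD, he⟩
    · obtain ⟨x0, g1, g2, g3⟩ := Y.hA_spec hz
      refine ⟨x0, g1, g2, ?_, g3⟩
      have g4 := Y.hA_le hx hzx
      have g5 := hD.th
      have g6 := Y.bs hx
      have g7 := Y.bs g1
      have e1 := H.lev_covBy hzx
      have e2 := H.lev_covBy g2
      have e3 := g6.lev
      have e4 := g7.lev
      rcases Y.cases g7.nat (by omega) with h | h | h
      · have := h.2.th
        omega
      · have := h.2.th
        omega
      · exact h
  have g7 := Y.bs h1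
  have e1 := H.lev_covBy hzx
  have e2 := H.lev_covBy h2
  have e4 := g7.lev
  rcases h3.alt (by omega) with h5 | h5
  · have h6 := cst_ge_cover (i := 4) (h := hA N θ4) H h2
    rw [h4] at h6
    rw [← cst_const_congr g7.lev g7.nab] at h6
    have h7 := h3.th
    rw [Nat.min_eq_left (by omega)] at h6
    omega
  · by_cases ht : x1 ∈ twA N
    · have hbs : GaussPoset.bs N x1 = twT N x1 := by
        unfold GaussPoset.bs
        rw [if_pos ht]
      rw [hbs] at h5
      exact (Y.no_cheap_twin ht h5).elim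
    · have hbs : GaussPoset.bs N x1 = x1 := by
        unfold GaussPoset.bs
        rw [if_neg ht]
      rw [hbs] at h5 h4
      exact Y.cheap_cover hz ((not_mem_rA.mp h1).resolve_right ht) h2 (by omega) h5 h4

end Pool.Agent.GaussPoset.W4
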