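import Pool.Agent.W_448w4_h70.WF

/-!
# The windows `3`, `4`: elements of level `j + 1` below deep cells of level `j`
(MP_448cb3_co, S7, `j = 12, 14, 15`)
-/

namespace Pool.Agent.GaussPoset.W4

set_option linter.unusedSectionVars false

open Polynomial Finset Sm

universe u

variable {P : Type u} [Fintype P] [PartialOrder P] [DecidableEq P] {r j K3 K V3 : ℕ}
  {N : Tops P → Finset P} {b : Tops P → ℕ} {θ3 θ4 : Tops P → P → ℕ}

/-- thresholds of single-up elements of level `j` -/
lemma Y4.single_th (Y : Y4 r j K3 K V3 N b θ3 θ4) {x : P} (hx : x ∉ unnat N) (hl : lev x = j)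
    (h1 : (Win.uc x).card = 1) : lev x ≤ θ4 (topOf x) x + 2 + 4 := by
  have H := Y.W.gt.H
  have HN := Y.W.natSys
  have hj := Y.n.hj
  have hxt : x ∈ N (topOf x) := HN.mem_iff.mpr ⟨hx, rfl⟩
  generalize topOf x = t at hxt ⊢
  rcases Y.typ t with ⟨g1, g2, g2', g5⟩ | ⟨c, Nc, co, h0, h0', g1, g2, g2', g4⟩ |
    ⟨Nc, co, h0, h0', g1, g2, g2', g5'⟩
  · rw [g2']
    simp only
    omega
  · rw [g1] at hxt
    by_cases hJ : x ∈ junk (fun _ => True) Nc co ∨ x ∈ junk (fun _ => True) Nc (swp co)
    · rw [g2']
      unfold thR
      rw [if_pos hJ]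
      omega
    · have hxN : x ∈ Nc := by
        rw [mem_natR] at hxt
        rcases hxt with h | h | h
        · exact h
        · exact absurd (Or.inl h) hJ
        · exact absurd (Or.inr h) hJ
      have h2 := rect_th4 h0 hxN hJ (by omega)
      rw [g2']
      by_contra hcon
      have := chart_inner_uc h0.chart H hxN (by omega) (by omega)
      omega
  · rw [g1] at hxt
    by_cases hJ : x ∈ junk (fun c => c.1 ≤ c.2) Nc co
    · rw [g2']
      unfold thSg
      rw [if_pos hJ]
      omega
    · have hxN : x ∈ Nc := by
        rw [mem_natS] at hxt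
        exact hxt.resolve_right hJ
      have h2 := stair_th4 h0 hxN hJ (by omega)
      rw [g2']
      omega

/-- elements of level `j + 1` below a deep cell -/
theorem Y4.deep_j (Y : Y4 r j K3 K V3 N b θ3 θ4)
    (hno : j % 2 = 0 → K < foC 4 j + foE 4 j ∨
      ∀ z x x' : P, Cg z x x' → lev z = j + 1 → ¬ Fold j x)
    {z : P} (hz : z ∈ bdR (rA N)) (hlz : lev z = j + 1) {x : P} (hzx : z ⋖ x)
    (hD : Dy j K V3 N θ3 θ4 x) : K < cst 4 (hA N θ4) z := by
  classical
  have W := Y.W
  have H := W.gt.H
  have HN := W.natSys
  have hj := Y.n.hj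
  have hzR := (mem_bdR.mp hz).1
  have hzu := (mem_rA.mp hzR).1
  have e1 := (H.covBy_iff.mp hzx).2
  have hlx : lev x = j := by omega
  have hx : x ∉ unnat N := W.low (by omega)
  have hbs : GaussPoset.bs N x = x := by
    unfold GaussPoset.bs
    rw [if_neg (W.not_tw hx)]
  have hle := Y.hA_le (not_mem_rA.mpr (Or.inl hx)) hzx
  rw [hbs] at hle
  have hle3 := W.hA_le (not_mem_rA.mpr (Or.inl hx)) hzx
  rw [hbs] at hle3
  have hth := hD.th
  have hxt : x ∈ N (topOf x) := HN.mem_iff.mpr ⟨hx, rfl⟩
  have hxle : x ≤ (topOf x : P) := le_topOf x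
  -- two covers have one cover each
  have hnear : (Win.uc x).card = 2 → ∀ y, z ⋖ y → y = x := by
    intro h2 y hy
    by_contra hne
    have := (W.near hzR hlz hzx hy (Ne.symm hne)).1
    omega
  -- the label of an element with one cover
  have hlab : (∀ y, z ⋖ y → y = x) → hA N θ4 z = θ4 (topOf x) x + 1 := by
    intro ho
    obtain ⟨x0, g1, g2, g3⟩ := Y.hA_spec hz
    rw [ho x0 g2, hbs] at g3
    exact g3
  generalize htt : topOf x = t at hxt hxle hle hle3 hth hlab
  rcases Y.typ t with ⟨g1, g2, g2', g5⟩ | ⟨c, Nc, co, h0, h0', g1, g2, g2', g4⟩ |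
    ⟨Nc, co, h0, h0', g1, g2, g2', g5'⟩
  · exfalso
    rw [g2'] at hth
    simp only at hth
    omega
  · exfalso
    rw [g1] at hxt
    rw [g2'] at hth
    have hJ : ¬ (x ∈ junk (fun _ => True) Nc co ∨ x ∈ junk (fun _ => True) Nc (swp co)) := by
      intro h
      unfold thR at hth
      rw [if_pos h] at hth
      omega
    have hxN : x ∈ Nc := by
      rw [mem_natR] at hxt
      rcases hxt with h | h | h
      · exact h
      · exact absurd (Or.inl h) hJ
      · exact absurd (Or.inr h) hJ
    have h2 := rect_th4 h0 hxN hJ (by omega)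
    have h3 := chart_inner_uc h0.chart H hxN (by omega) (by omega)
    exact g4 x z hxle hlx h3 hzx (hnear h3)
  · rw [g1] at hxt
    rw [g2'] at hth
    have hJ : x ∉ junk (fun c => c.1 ≤ c.2) Nc co := by
      intro h
      unfold thSg at hth
      rw [if_pos h] at hth
      omega
    have hxN : x ∈ Nc := by
      rw [mem_natS] at hxt
      exact hxt.resolve_right hJ
    have hl := h0.chart.lev x hxN
    have hm : (co x).1 ≤ (co x).2 := h0.chart.mem x hxN
    have h2 := stair_th4 h0 hxN hJ (by omega)
    have h2' := stair_th7 h0' le_rfl (by norm_num) hxN hJ (by omega)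
    have h6 := cst_ge_cover (i := 4) (h := hA N θ4) H.gradedBelow hzx
    rcases Nat.lt_or_ge (co x).1 (co x).2 with hlt | hge
    · -- a double
      have h3 := stair_inner_uc h0.chart H hxN (by omega) hlt
      have ho := hnear h3
      have h4 := Y.stair_pend h0 g1 g5' hxN hlx (by omega) hlt hz hzx ho
      have h5 := hlab ho
      rw [g2'] at h5
      have hlb : hA N θ4 z = j - 4 - 1 := by omega
      have h7 := cst_stair (w := 4) (L := j) (h := hA N θ4 z) h0.chart hxN hlx (by omega)
      have h8 := Y.n.fl (by omega)
      rw [h7, Nat.min_eq_left (by omega), hlb] at h6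
      unfold flC at h8
      rw [show (co x).1 = (j - 3) / 2 by omega, show j - (j - 3) / 2 = (j + 3) / 2 by omega]
        at h6
      omega
    · -- the fold end
      by_cases ho : ∀ y, z ⋖ y → y = x
      · exact (Y.fold_pend h0' g1 g2 hxN hlx (by omega) hz hzx ho).elim
      -- a second cover
      push Not at ho
      obtain ⟨x', hzx', hne'⟩ := ho
      have hne : x ≠ x' := Ne.symm hne'
      have e2 := (H.covBy_iff.mp hzx').2
      have hx' : x' ∉ unnat N := W.low (by omega)
      have hnr := W.near hzR hlz hzx hzx' hne
      have hbs' : GaussPoset.bs N x' = x' := by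
        unfold GaussPoset.bs
        rw [if_neg (W.not_tw hx')]
      have huni := uc_two_of H hzx hzx' hne
      have hj2 : j % 2 = 0 := by omega
      have hA2 : (co x).1 = j / 2 := by omega
      have hnk : ∀ k, k ≤ j → nab k x + (k - j / 2) = min (k / 2) (j / 2) + 1 := by
        intro k hk
        have := stair_nab h0.chart hxN (k := k) (by omega)
        rw [hA2, show (co x).2 = j / 2 by omega] at this
        exact this
      -- the second cover in the same component
      have hcell : topOf x' = t → x' ∈ Nc ∧ (co x').1 = 0 := by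
        intro hh
        have hx'N : x' ∈ Nc := by
          refine h0.strip (mem_lowPart.mpr ⟨?_, by omega⟩)
          have h5 := le_topOf x'
          rw [hh] at h5
          exact h5
        have hl' := h0.chart.lev x' hx'N
        have hm' : (co x').1 ≤ (co x').2 := h0.chart.mem x' hx'N
        refine ⟨hx'N, ?_⟩
        by_contra h11
        rcases Nat.lt_or_ge (co x').1 (co x').2 with h12 | h12
        · have := stair_inner_uc h0.chart H hx'N (by omega) h12
          omega
        · exact hne (h0.chart.inj x hxN x' hx'N (Prod.ext (by omega) (by omega)))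
      by_cases hfo : K < foC 4 j + foE 4 j
      · -- by the cost
        have hlb' : hA N θ4 z = j - 4 - 1 := by
          obtain ⟨x0, f1, f2, f3⟩ := Y.hA_spec hz
          rw [g2'] at hle
          rcases huni x0 f2 with h | h
          · rw [h, hbs, htt, g2'] at f3
            omega
          · rw [h, hbs'] at f3
            have f6 := Y.single_th hx' (by omega) hnr.2
            omega
        have hextra : ∀ k, j / 2 < k → k ≤ j → nab k x + 1 ≤ nab k z := by
          intro k hk1 hk2
          obtain ⟨q, q1, q2, q3⟩ := exists_between H.gradedBelow (z := x') (s := (topOf x' : P))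
            (le_topOf x') (l := k) (by have := (topOf x').2; omega) (by omega)
          have hxq : ¬ x ≤ q := by
            intro hxq
            have hqt : topOf q = topOf x' := (W.up hx' q1).2
            have hqt' : topOf q = topOf x := (W.up hx hxq).2
            obtain ⟨hx'N, h10⟩ := hcell (by rw [← hqt, hqt', htt])
            have hl' := h0.chart.lev x' hx'N
            have hqN := h0.chart.up x' hx'N q q1
            have hq1 := (h0.chart.le_iff x' hx'N q hqN).mp q1
            have hq2 := (h0.chart.le_iff x hxN q hqN).mp hxq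
            have hlq := h0.chart.lev q hqN
            have b1 : (co q).1 ≤ (co x').1 := hq1.1
            have b2 : (co q).2 ≤ (co x).2 := hq2.2
            omega
          have h11 : insert q ((lv P k).filter (fun y => x ≤ y)) ⊆
              (lv P k).filter (fun y => z ≤ y) := by
            intro y hy
            rw [mem_insert, mem_filter, mem_lv] at hy
            rw [mem_filter, mem_lv]
            rcases hy with rfl | hy
            · exact ⟨q3, hzx'.1.le.trans q1⟩
            · exact ⟨hy.1, hzx.1.le.trans hy.2⟩
          have h12 := Finset.card_le_card h11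
          rw [Finset.card_insert_of_notMem (by
            rw [mem_filter]
            exact fun h => hxq h.2)] at h12
          exact h12
        have key : foC 4 j + foE 4 j ≤ cst 4 (hA N θ4) z := by
          rw [cst_shift (i := 4) (h := hA N θ4) (a := j - 4 + 1) (by omega),
            Finset.sum_range_succ, hlb']
          have s4 : min (j - 4 - 1) (j - 4 + 1) * nab (4 + (j - 4 + 1)) z = j - 4 - 1 := by
            rw [Nat.min_eq_left (by omega), show 4 + (j - 4 + 1) = lev z by omega, nab_self,
              mul_one]
          rw [s4]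
          unfold foC foE
          have s5 : ∑ n ∈ range (j - 4 + 1), min (j - 4 - 1) n *
              (min ((4 + n) / 2) (j / 2) + 1 - ((4 + n) - j / 2)) +
              ∑ n ∈ range (j - 4 + 1), min (j - 4 - 1) n * (if j / 2 < 4 + n then 1 else 0) ≤
              ∑ n ∈ range (j - 4 + 1), min (j - 4 - 1) n * nab (4 + n) z := by
            rw [← Finset.sum_add_distrib]
            refine Finset.sum_le_sum fun n hn => ?_
            rw [mem_range] at hn
            rw [← Nat.mul_add]
            refine Nat.mul_le_mul_left _ ?_
            have a1 := hnk (4 + n) (by omega)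
            split_ifs with h13
            · have := hextra (4 + n) h13 (by omega)
              omega
            · have := nab_mono (l := 4 + n) hzx.1.le
              omega
          omega
        omega
      · have hnf := (hno hj2).resolve_left hfo
        have hfo3 := (Y.n.fo2 hj2).resolve_left hfo
        exfalso
        by_cases hh : topOf x' = t
        · -- the own double: by the cost at window `3`
          obtain ⟨hx'N, h10⟩ := hcell hh
          have hl' := h0.chart.lev x' hx'N
          have hlb' : hA N θ3 z = j - 3 - 1 := by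
            obtain ⟨x0, f1, f2, f3⟩ := W.hA_spec hz
            rw [g2] at hle3
            rcases huni x0 f2 with h | h
            · rw [h, hbs, htt, g2] at f3
              omega
            · rw [h, hbs'] at f3
              have f6 := W.single_th hx' (by omega) hnr.2
              omega
          have hcov : ∀ y, z ≤ y → lev y ≤ j → x ≤ y ∨ x' ≤ y := by
            intro y hy hly
            have hlt : z < y := lt_of_le_of_ne hy (by rintro rfl; omega)
            obtain ⟨u, hu, huy⟩ := Hul.exists_cov hlt
            rcases huni u hu with h | h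
            · exact Or.inl (h ▸ huy)
            · exact Or.inr (h ▸ huy)
          have hpos : ∀ y, x' ≤ y → y ∈ Nc ∧ (co y).1 = 0 ∧ (co y).2 = lev y := by
            intro y hy
            have hyN := h0.chart.up x' hx'N y hy
            have h11 := (h0.chart.le_iff x' hx'N y hyN).mp hy
            have h12 : (co y).1 ≤ (co x').1 := h11.1
            have h13 := h0.chart.lev y hyN
            exact ⟨hyN, by omega, by omega⟩
          have hup : ∀ k, k ≤ j → nab k z ≤ nab k x + (if j / 2 < k then 1 else 0) := by
            intro k hk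
            unfold nab
            split_ifs with h13
            · obtain ⟨q, hq, hcq⟩ := h0.chart.low x' hx'N (0, k)
                ⟨Nat.zero_le _, by simp only; omega⟩ (Nat.zero_le _)
              have h11 : (lv P k).filter (fun y => z ≤ y) ⊆
                  insert q ((lv P k).filter (fun y => x ≤ y)) := by
                intro y hy
                rw [mem_filter, mem_lv] at hy
                rw [mem_insert, mem_filter, mem_lv]
                rcases hcov y hy.2 (by omega) with h | h
                · exact Or.inr ⟨hy.1, h⟩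
                · left
                  obtain ⟨p1, p2, p3⟩ := hpos y h
                  refine h0.chart.inj y p1 q hq ?_
                  rw [hcq]
                  exact Prod.ext (by simp only; omega) (by simp only; omega)
              exact (Finset.card_le_card h11).trans (Finset.card_insert_le _ _)
            · refine Finset.card_le_card fun y hy => ?_
              rw [mem_filter, mem_lv] at hy ⊢
              refine ⟨hy.1, ?_⟩
              rcases hcov y hy.2 (by omega) with h | h
              · exact h
              · obtain ⟨p1, p2, p3⟩ := hpos y h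
                rw [h0.chart.le_iff x hxN y p1]
                exact ⟨by omega, by omega⟩
          have key : cst 3 (hA N θ3) z ≤ foC 3 j + foE 3 j := by
            rw [cst_shift (i := 3) (h := hA N θ3) (a := j - 3 + 1) (by omega),
              Finset.sum_range_succ, hlb']
            have s4 : min (j - 3 - 1) (j - 3 + 1) * nab (3 + (j - 3 + 1)) z = j - 3 - 1 := by
              rw [Nat.min_eq_left (by omega), show 3 + (j - 3 + 1) = lev z by omega, nab_self,
                mul_one]
            rw [s4]
            unfold foC foE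
            have s5 : ∑ n ∈ range (j - 3 + 1), min (j - 3 - 1) n * nab (3 + n) z ≤
                ∑ n ∈ range (j - 3 + 1), min (j - 3 - 1) n *
                (min ((3 + n) / 2) (j / 2) + 1 - ((3 + n) - j / 2)) +
                ∑ n ∈ range (j - 3 + 1), min (j - 3 - 1) n * (if j / 2 < 3 + n then 1 else 0) := by
              rw [← Finset.sum_add_distrib]
              refine Finset.sum_le_sum fun n hn => ?_
              rw [mem_range] at hn
              rw [← Nat.mul_add]
              refine Nat.mul_le_mul_left _ ?_
              have a1 := hnk (3 + n) (by omega)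
              have a2 := hup (3 + n) (by omega)
              omega
            omega
          have := Y.m3 z hz
          omega
        · refine hnf z x x' (Cg.mk' hzx hzx' (mem_onlyB.mpr fun s hs hxs => ?_)
            (mem_onlyB.mpr fun s hs hxs => ?_) ?_) hlz ⟨hlx, hj2, fun k hk => ?_⟩
          · exact HN.top_eq (HN.mem_iff.mpr ⟨hx, rfl⟩) hs hxs
          · exact HN.top_eq (HN.mem_iff.mpr ⟨hx', rfl⟩) hs hxs
          · rw [htt]
            exact fun h => hh h.symm
          · have := hnk k hk
            omega

/-- **Own noise at window `4`.**  The cheapest boundary elements, if their cost is at most `K`,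
are joins with straight covers and the full label; the twins are more expensive. -/
theorem Y4.min_join (Y : Y4 r j K3 K V3 N b θ3 θ4)
    (hno : j % 2 = 0 → K < foC 4 j + foE 4 j ∨
      ∀ z x x' : P, Cg z x x' → lev z = j + 1 → ¬ Fold j x)
    {v : ℕ} (M : Mn j 4 N θ4 v) (hv : v ≤ K) {z : P} (hz : z ∈ bdR (rA N))
    (hc : cst 4 (hA N θ4) z = v) :
    (∀ x, z ⋖ x → x ∉ unnat N ∧ Str 3 N θ3 x ∧ Str 4 N θ4 x) ∧ hA N θ4 z = lev z - 4 ∧
      v = ful 4 z ∧ ∃ x x', Cg z x x' := by
  classical
  have W := Y.W
  have H := W.gt.H
  have HN := W.natSys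
  have hj := Y.n.hj
  have hlz := W.bd_lev hz
  by_cases hd : ∃ x, x ∉ rA N ∧ z ⋖ x ∧ Dy j K V3 N θ3 θ4 (GaussPoset.bs N x)
  · exfalso
    obtain ⟨x, hx, hzx, hD⟩ := hd
    have e1 := (H.covBy_iff.mp hzx).2
    by_cases hl : j + 1 ≤ lev x
    · have := Y.deep_cover hz hx hzx hl hD
      omega
    · have hxu : x ∉ unnat N := W.low (by omega)
      have hbs : GaussPoset.bs N x = x := by
        unfold GaussPoset.bs
        rw [if_neg (W.not_tw hxu)]
      rw [hbs] at hD
      have := Y.deep_j hno hz (by omega) hzx hD
      omega
  · push Not at hd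
    obtain ⟨hF, hge⟩ := Y.flat M hz hc hd
    by_cases hR : ∃ x, z ⋖ x ∧ Row1 j 3 N θ3 x ∧ Row1 j 4 N θ4 x
    · obtain ⟨x, hzx, hR3, hR4⟩ := hR
      have := Y.row1_out hz hF hge hzx hR3 hR4
      omega
    · push Not at hR
      have hS : ∀ x, z ⋖ x → x ∉ unnat N ∧ Str 3 N θ3 x ∧ Str 4 N θ4 x := fun x hx =>
        ⟨(hF x hx).1, (hF x hx).2.resolve_right (fun h => hR x hx h.1 h.2)⟩
      have hh : hA N θ4 z = lev z - 4 := by
        obtain ⟨x0, f1, f2, f3⟩ := Y.hA_spec hz
        obtain ⟨g1, g2⟩ := hS x0 f2
        have hbs : GaussPoset.bs N x0 = x0 := by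
          unfold GaussPoset.bs
          rw [if_neg (W.not_tw g1)]
        rw [hbs, g2.2.th] at f3
        have := (H.covBy_iff.mp f2).2
        omega
      have hh3 : hA N θ3 z = lev z - 3 := by
        obtain ⟨x0, f1, f2, f3⟩ := W.hA_spec hz
        obtain ⟨g1, g2⟩ := hS x0 f2
        have hbs : GaussPoset.bs N x0 = x0 := by
          unfold GaussPoset.bs
          rw [if_neg (W.not_tw g1)]
        rw [hbs, g2.1.th] at f3
        have := (H.covBy_iff.mp f2).2
        omega
      by_cases hT : ∃ x x', z ⋖ x ∧ z ⋖ x' ∧ topOf x ≠ topOf x'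
      · obtain ⟨x, x', h1, h2, h3⟩ := hT
        refine ⟨hS, hh, ?_, x, x', ?_⟩
        · rw [← hc]
          exact cst_eq_ful (by omega)
        · exact Cg.mk' h1 h2
            (mem_onlyB.mpr fun s hs hxs => HN.top_eq (HN.mem_iff.mpr ⟨(hS x h1).1, rfl⟩) hs hxs)
            (mem_onlyB.mpr fun s hs hxs => HN.top_eq (HN.mem_iff.mpr ⟨(hS x' h2).1, rfl⟩) hs hxs)
            h3
      · exfalso
        push Not at hT
        obtain ⟨x, hzx, -⟩ := Hul.exists_cov (w := z) (v := (topOf z : P))
          (lt_of_le_of_ne (le_topOf z) (by
            intro h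
            have := (topOf z).2
            rw [← h] at this
            omega))
        have := Y.own_out hz hh hh3 (fun x hx => ⟨(hS x hx).1, (hS x hx).2.1⟩)
          (t := topOf x) fun x' hx' => hT x' x hx' hzx
        omega

/-- the minimal value at window `4` -/
lemma exists_min4 (hne : (bdR (rA N)).Nonempty) :
    ∃ v, Mn j 4 N θ4 v ∧ ((∃ z ∈ bdR (rA N), cst 4 (hA N θ4) z = v) ∨
      ∃ x ∈ twA N, tcst 4 (thA N θ4) (twT N x, x) = v) := by
  classical
  let A : Finset ℕ := (bdR (rA N)).image (cst 4 (hA N θ4)) ∪
    (twA N).image (fun x => tcst 4 (thA N θ4) (twT N x, x))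
  have hA : A.Nonempty := by
    obtain ⟨z, hz⟩ := hne
    exact ⟨_, mem_union_left _ (mem_image_of_mem _ hz)⟩
  refine ⟨A.min' hA, ⟨fun z hz => A.min'_le _ (mem_union_left _ (mem_image_of_mem _ hz)),
    fun x hx => A.min'_le _ (mem_union_right _
      (mem_image_of_mem (fun x => tcst 4 (thA N θ4) (twT N x, x)) hx))⟩, ?_⟩
  have := A.min'_mem hA
  rcases mem_union.mp this with h | h
  · obtain ⟨z, hz, h⟩ := mem_image.mp h
    exact Or.inl ⟨z, hz, h⟩
  · obtain ⟨x, hx, h⟩ := mem_image.mp h
    exact Or.inr ⟨x, hx, h⟩

/-- **Own noise at window `4`**, for a lower bound `n` of the costs of the joins: every element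
of the boundary costs at least `n`, the twins cost more than `n`, and the boundary elements of
cost `n` are joins with straight covers and the full label. -/
theorem Y4.own_noise (Y : Y4 r j K3 K V3 N b θ3 θ4)
    (hno : j % 2 = 0 → K < foC 4 j + foE 4 j ∨
      ∀ z x x' : P, Cg z x x' → lev z = j + 1 → ¬ Fold j x)
    {n : ℕ} (hn : n ≤ K) (hjn : ∀ z x x' : P, Cg z x x' → n ≤ ful 4 z) :
    (∀ z ∈ bdR (rA N), n ≤ cst 4 (hA N θ4) z) ∧
    (∀ x ∈ twA N, n < tcst 4 (thA N θ4) (twT N x, x)) ∧
    (∀ z ∈ bdR (rA N), cst 4 (hA N θ4) z = n →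
      (∀ x, z ⋖ x → x ∉ unnat N ∧ Str 3 N θ3 x ∧ Str 4 N θ4 x) ∧ hA N θ4 z = lev z - 4 ∧
      n = ful 4 z ∧ ∃ x x', Cg z x x') := by
  have htw : ∀ x ∈ twA N, n < tcst 4 (thA N θ4) (twT N x, x) := fun x hx =>
    hn.trans_lt (Y.out_tw hx)
  by_cases hne : (bdR (rA N)).Nonempty
  · obtain ⟨v, M, hex⟩ := exists_min4 (j := j) (θ4 := θ4) hne
    have hnv : n ≤ v := by
      by_contra hcon
      rcases hex with ⟨z, hz, h⟩ | ⟨x, hx, h⟩
      · obtain ⟨-, -, h3, x, x', h4⟩ := Y.min_join hno M (by omega) hz h
        have := hjn z x x' h4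
        omega
      · have := htw x hx
        omega
    refine ⟨fun z hz => hnv.trans (M.bd z hz), htw, fun z hz hc => ?_⟩
    have hvn : v = n := le_antisymm (by rw [← hc]; exact M.bd z hz) hnv
    subst hvn
    exact Y.min_join hno M hn hz hc
  · rw [Finset.not_nonempty_iff_eq_empty] at hne
    rw [hne]
    exact ⟨fun z hz => absurd hz (Finset.notMem_empty z), htw,
      fun z hz => absurd hz (Finset.notMem_empty z)⟩

end Pool.Agent.GaussPoset.W4
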